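import Pool.Agent.Helper82_MG.Step

/-!
# CLAIM: generic extension from `α` to `γ`
-/

open Set

namespace Pool.Agent.MG.H82

variable {I : Type} [Idx I]

/-- Dependent choice with an invariant. -/
theorem exists_dep_seq {X : Type*} (Inv : ℕ → X → Prop) (Rel : ℕ → X → X → Prop) (x0 : X)
    (h0 : Inv 0 x0) (hs : ∀ n x, Inv n x → ∃ x', Inv (n + 1) x' ∧ Rel n x x') :
    ∃ f : ℕ → X, f 0 = x0 ∧ ∀ n, Inv n (f n) ∧ Rel n (f n) (f (n + 1)) := by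
  choose! F hF using hs
  let g : (n : ℕ) → X := fun n => Nat.rec x0 (fun n x => F n x) n
  have hg : ∀ n, Inv n (g n) := by
    intro n
    induction n with
    | zero => exact h0
    | succ n ih => exact (hF n (g n) ih).1
  exact ⟨g, rfl, fun n => ⟨hg n, (hF n (g n) (hg n)).2⟩⟩

/-- The limit step. -/
theorem claim_limit (hHg : HgStmt I) (β : I) (N : Set (Cond I)) (Z : Set I)
    (𝒟 : Set (Set (Cond I))) (hN : GoodN I β N Z) (hD : GoodD I β N Z 𝒟)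
    (α γ : I) (hαγ : α < γ) (hγβ : γ ≤ β) (hlim : ∀ δ, α ≤ δ → δ < γ → nx δ < γ)
    (IH : ∀ α' γ', α' ≤ γ' → γ' < γ → ∀ r, VB α' r → ∀ c : Pt I → Cond I, MeasC c → Dep α' c →
      (∀ y ∈ r.body, c y ∈ N ∧ y ∈ ((c y).restr α').body ∧ Gen I N 𝒟 α' y) →
      ∃ q, VB γ' q ∧ Cond.Ext α' r q ∧
        ∀ y ∈ q.body, y ∈ ((c y).restr γ').body ∧ Hit I N 𝒟 γ' (c y) y)
    (r : Cond I) (hr : VB α r) (c : Pt I → Cond I) (hc : MeasC c) (hcd : Dep α c)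
    (hcr : ∀ y ∈ r.body, c y ∈ N ∧ y ∈ ((c y).restr α).body ∧ Gen I N 𝒟 α y)
    (i : ℕ → I) (hi : Set.range i = Z) (Dq : ℕ → Set (Cond I)) (hDq : Set.range Dq = 𝒟) :
    ∃ q, VB γ q ∧ Cond.Ext α r q ∧
      ∀ y ∈ q.body, y ∈ ((c y).restr γ).body ∧ Hit I N 𝒟 γ (c y) y := by
  classical
  have hDq' : ∀ n, Dq n ∈ 𝒟 := fun n => hDq ▸ Set.mem_range_self n
  obtain ⟨hg1, -, -, hg4⟩ := hHg β N Z 𝒟 hN hD
  -- the cofinal sequence
  let A : ℕ → I := fun n => Nat.rec α (fun n a => max a (if i n < γ then nx (i n) else α)) n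
  have hA0 : A 0 = α := rfl
  have hAs : ∀ n, A (n + 1) = max (A n) (if i n < γ then nx (i n) else α) := fun n => rfl
  have hAmono : ∀ n, A n ≤ A (n + 1) := fun n => by rw [hAs]; exact le_max_left _ _
  have hAm : Monotone A := monotone_nat_of_le_succ hAmono
  have hAγ : ∀ n, A n < γ := by
    intro n
    induction n with
    | zero => exact hαγ
    | succ n ih =>
      rw [hAs]
      refine max_lt ih ?_
      split_ifs with h
      · rcases le_or_gt α (i n) with h2 | h2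
        · exact hlim _ h2 h
        · exact lt_of_le_of_lt (nx_le _ _ h2) hαγ
      · exact hαγ
  have hAcof : ∀ j ∈ Z, j < γ → ∃ n, j < A n := by
    intro j hj hjγ
    rw [← hi] at hj
    obtain ⟨n, rfl⟩ := hj
    refine ⟨n + 1, lt_of_lt_of_le (lt_nx (i n)) ?_⟩
    rw [hAs, if_pos hjγ]
    exact le_max_right _ _
  -- the recursion
  obtain ⟨f, hf0, hf⟩ := exists_dep_seq (X := Cond I × (Pt I → Cond I))
    (fun n x => VB (A n) x.1 ∧ MeasC x.2 ∧ Dep (A n) x.2 ∧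
      ∀ y ∈ x.1.body, x.2 y ∈ N ∧ y ∈ ((x.2 y).restr (A n)).body ∧ Gen I N 𝒟 (A n) y)
    (fun n x x' => Cond.Ext (A n) x.1 x'.1 ∧ ∀ y ∈ x'.1.body, x'.2 y ≤ x.2 y ∧ x'.2 y ∈ Dq n)
    (r, c) ⟨hr, hc, hcd, hcr⟩ (by
      rintro n ⟨q, c'⟩ ⟨h1, h2, h3, h4⟩
      obtain ⟨cc, hcc1, hcc2⟩ := hg4 (A n) ((hAγ n).trans_le hγβ) (fun _ => Dq n)
        (fun _ => hDq' n) (Set.Iio (A n)) c' h2 h3 Set.inter_subset_right
      have hcc3 : ∀ y ∈ q.body, cc 0 y ∈ N ∧ cc 0 y ∈ Dq n ∧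
          y ∈ ((cc 0 y).restr (A n)).body ∧ cc 0 y ≤ c' y := by
        intro y hy
        obtain ⟨ha, hb, hg⟩ := h4 y hy
        obtain ⟨k1, k2, k3, k4, -⟩ := hcc2 y hg ha hb 0
        exact ⟨k1, k2, k3, k4⟩
      obtain ⟨q', hq1, hq2, hq3⟩ := IH (A n) (A (n + 1)) (hAmono n) (hAγ (n + 1)) q h1 (cc 0)
        (hcc1 0).1 (hcc1 0).2
        (fun y hy => ⟨(hcc3 y hy).1, (hcc3 y hy).2.2.1, (h4 y hy).2.2⟩)
      have hle : ∀ y ∈ q'.body, y ∈ q.body := fun y hy => hq2.le h1.below hy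
      refine ⟨(q', cc 0), ⟨hq1, (hcc1 0).1, Dep.mono (hcc1 0).2 (hAmono n), fun y hy => ?_⟩, hq2,
        fun y hy => ⟨(hcc3 y (hle y hy)).2.2.2, (hcc3 y (hle y hy)).2.1⟩⟩
      have hyN := (hcc3 y (hle y hy)).1
      exact ⟨hyN, (hq3 y hy).1, hg1 (A (n + 1)) ((hAγ (n + 1)).trans_le hγβ) _ hyN y
        (hq3 y hy).1 (hq3 y hy).2⟩)
  have hq : ∀ n, VB (A n) (f n).1 := fun n => (hf n).1.1
  have hE : ∀ n, Cond.Ext (A n) (f n).1 (f (n + 1)).1 := fun n => (hf n).2.1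
  obtain ⟨p, hpb, hpE, hpS⟩ := Cond.exists_union γ A hAmono (fun n => (hAγ n).le)
    (fun n => (f n).1) (fun n => (hq n).below) hE
  have hV : VB γ p := VB_union hAmono (fun n => (hAγ n).le) hq hpb hpE hpS
  have hE0 : Cond.Ext α r p := by
    have := hpE 0
    rw [hf0] at this
    exact this
  refine ⟨p, hV, hE0, fun y hy => ?_⟩
  have hyn : ∀ n, y ∈ (f n).1.body := fun n => (hpE n).le (hq n).below hy
  have hstep : ∀ n, (f (n + 1)).2 y ≤ (f n).2 y ∧ (f (n + 1)).2 y ∈ Dq n := fun n =>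
    (hf n).2.2 y (hyn (n + 1))
  have hdec : ∀ m n, m ≤ n → (f n).2 y ≤ (f m).2 y := by
    intro m n hmn
    induction n, hmn using Nat.le_induction with
    | base => exact le_rfl
    | succ n _ ih => exact (hstep n).1.trans ih
  have hN' : ∀ n, (f n).2 y ∈ N := fun n => ((hf n).1.2.2.2 y (hyn n)).1
  have hres : ∀ n, y ∈ (((f n).2 y).restr (A n)).body := fun n =>
    ((hf n).1.2.2.2 y (hyn n)).2.1
  have hfull : ∀ n, y ∈ (((f n).2 y).restr γ).body := by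
    intro n
    rw [Cond.mem_restr]
    intro j hj hjγ
    obtain ⟨m, hm⟩ := hAcof j (hN.supp _ (hN' n) hj) hjγ
    have h1 : y ∈ (((f n).2 y).restr (A (max n m))).body :=
      Cond.restr_mono (hdec n _ (le_max_left n m)) _ (hres _)
    rw [Cond.mem_restr] at h1
    exact h1 j hj (lt_of_lt_of_le hm (hAm (le_max_right n m)))
  have hc0 : (f 0).2 y = c y := by rw [hf0]
  refine ⟨by rw [← hc0]; exact hfull 0, fun D hDD => ?_⟩
  obtain ⟨n, rfl⟩ : ∃ n, Dq n = D := by rw [← hDq] at hDD; exact hDD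
  exact ⟨(f (n + 1)).2 y, hN' _, by rw [← hc0]; exact hdec 0 _ (Nat.zero_le _), (hstep n).2,
    hfull _⟩

/-- CLAIM. -/
theorem claim (hHg : HgStmt I) (hStep : StepStmt I) : ClaimStmt I := by
  intro β N Z 𝒟 hN hD hB
  suffices H : ∀ γ : I, ∀ α, α < β → α ≤ γ → γ ≤ β → ∀ r, VB α r → ∀ c : Pt I → Cond I,
      MeasC c → Dep α c →
      (∀ y ∈ r.body, c y ∈ N ∧ y ∈ ((c y).restr α).body ∧ Gen I N 𝒟 α y) →
      ∃ q, VB γ q ∧ Cond.Ext α r q ∧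
        ∀ y ∈ q.body, y ∈ ((c y).restr γ).body ∧ Hit I N 𝒟 γ (c y) y from
    fun α γ => H γ α
  obtain ⟨hg1, -, -, -⟩ := hHg β N Z 𝒟 hN hD
  intro γ
  induction γ using (wellFounded_lt (α := I)).induction with
  | _ γ IH =>
  intro α hαβ hαγ hγβ r hr c hc hcd hcr
  rcases hαγ.eq_or_lt with rfl | hlt
  · refine ⟨r, hr, Cond.Ext.refl _ _, fun y hy => ?_⟩
    obtain ⟨h1, h2, h3⟩ := hcr y hy
    exact ⟨h2, fun D hDD => h3 (c y) h1 h2 D hDD⟩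
  by_cases hs : ∃ δ, α ≤ δ ∧ δ < γ ∧ nx δ = γ
  · obtain ⟨δ, h1, h2, rfl⟩ := hs
    have hδβ : δ < β := lt_of_lt_of_le h2 hγβ
    obtain ⟨q0, hq1, hq2, hq3⟩ := IH δ h2 α hαβ h1 hδβ.le r hr c hc hcd hcr
    have hle : ∀ y ∈ q0.body, y ∈ r.body := fun y hy => hq2.le hr.below hy
    obtain ⟨q, hq4, hq5, hq6⟩ := hStep β N Z 𝒟 hN hD hB δ hδβ q0 hq1 c hc (hcd.mono h1)
      (fun y hy => ⟨(hcr y (hle y hy)).1, (hq3 y hy).1,
        hg1 δ hδβ _ (hcr y (hle y hy)).1 y (hq3 y hy).1 (hq3 y hy).2⟩)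
    exact ⟨q, hq4, hq2.trans hq5 h1, hq6⟩
  · by_cases hZ : Z.Nonempty
    · obtain ⟨i, hi⟩ := hN.cZ.exists_eq_range hZ
      obtain ⟨α0, hα0⟩ := hZ
      obtain ⟨Dq, hDq⟩ := hD.cnt.exists_eq_range ⟨_, hD.ds α0 hα0⟩
      refine claim_limit hHg β N Z 𝒟 hN hD α γ hlt hγβ ?_ ?_ r hr c hc hcd hcr i hi.symm Dq
        hDq.symm
      · intro δ h1 h2
        exact lt_of_le_of_ne (nx_le δ γ h2) fun h3 => hs ⟨δ, h1, h2, h3⟩
      · intro α' γ' h1 h2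
        exact IH γ' h2 α' (lt_of_le_of_lt h1 (h2.trans_le hγβ)) h1 (h2.le.trans hγβ)
    · have hZ0 : ∀ i, i ∉ Z := fun i hi => hZ ⟨i, hi⟩
      refine ⟨r, hr.mono hαγ, Cond.Ext.refl _ _, fun y hy => ?_⟩
      obtain ⟨h1, h2, h3⟩ := hcr y hy
      have hany : ∀ d ∈ N, y ∈ (d.restr γ).body := by
        intro d hd
        rw [Cond.mem_restr]
        exact fun j hj => absurd (hN.supp d hd hj) (hZ0 j)
      refine ⟨hany _ h1, fun D hDD => ?_⟩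
      obtain ⟨d, hdN, hdc, hdD, -⟩ := h3 (c y) h1 h2 D hDD
      exact ⟨d, hdN, hdc, hdD, hany d hdN⟩

end Pool.Agent.MG.H82
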