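import Pool.Agent.Helper56_MG.Stmts
import Pool.Agent.Helper56_MG.Base3

/-!
# STEP: generic extension by one coordinate
-/

open Set

namespace Pool.Agent.MG.H82

variable {I : Type} [Idx I]

theorem le_of_lt_nx {i α : I} (h : i < nx α) : i ≤ α := by
  by_contra h'
  exact absurd (nx_le α i (not_le.1 h')) (not_le.2 h)

/-- The value at `α` decides membership in the restriction to the successor. -/
theorem mem_restr_nx {p : Cond I} {α : I} {y : Pt I} (h : y ∈ (p.restr α).body)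
    (h2 : α ∈ p.S → y α ∈ bd (ty α) (p.T α y)) : y ∈ (p.restr (nx α)).body := by
  rw [Cond.mem_restr] at h ⊢
  intro i hi hlt
  rcases (le_of_lt_nx hlt).lt_or_eq with h3 | h3
  · exact h i hi h3
  · subst h3
    exact h2 hi

theorem big_univ : Big (Set.univ : Set (List ℕ)) :=
  ⟨trivial, fun _ _ _ => trivial, fun _ _ n => ⟨n, le_rfl, trivial⟩⟩

theorem ini_succ (g : ℕ → ℕ) (n : ℕ) : ini g (n + 1) = ini g n ++ [g n] := by
  simp [ini, List.range_succ]

theorem length_ini (g : ℕ → ℕ) (n : ℕ) : (ini g n).length = n := by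
  simp [ini]

/-- The Miller case. -/
theorem step_miller (hMfus : MfusStmt I) (hFtm : FtMStmt) (hSys : SysStmt I)
    (β : I) (N : Set (Cond I)) (Z : Set I) (𝒟 : Set (Set (Cond I)))
    (hN : GoodN I β N Z) (hD : GoodD I β N Z 𝒟) (α : I) (hα : α ∈ Z)
    (hty : ty α = true) (r : Cond I) (hr : VB α r) (c : Pt I → Cond I) (hc : MeasC c)
    (hcd : Dep α c)
    (hcr : ∀ y ∈ r.body, c y ∈ N ∧ y ∈ ((c y).restr α).body ∧ Gen I N 𝒟 α y)
    (Dq : ℕ → Set (Cond I)) (hDq : Set.range Dq = 𝒟) :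
    ∃ q, VB (nx α) q ∧ Cond.Ext α r q ∧
      ∀ y ∈ q.body, y ∈ ((c y).restr (nx α)).body ∧ Hit I N 𝒟 (nx α) (c y) y := by
  classical
  have hDq' : ∀ n, Dq n ∈ 𝒟 := fun n => hDq ▸ Set.mem_range_self n
  have key : ∀ e0 : Cond I, ∃ (e : List ℕ → Pt I → Cond I) (s : List ℕ → Pt I → Node)
      (m : List ℕ → ℕ → Pt I → ℕ),
      (∀ σ, MeasC (s σ) ∧ DepOn (Z ∩ Set.Iio α) (s σ)) ∧
      (e0 ∈ N → ∀ y ∈ (e0.restr α).body, Gen I N 𝒟 α y →
        MSys I N Dq α e0 y (fun σ => e σ y) (fun σ => s σ y) (fun σ k => m σ k y)) := by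
    intro e0
    by_cases he : e0 ∈ N
    · obtain ⟨e, s, m, h1, h2, h3, h4⟩ := hMfus β N Z 𝒟 hN hD α hα hty e0 he Dq hDq'
      exact ⟨e, s, m, h2, fun _ => h4⟩
    · exact ⟨fun _ _ => e0, fun _ _ => [], fun _ _ _ => 0,
        fun σ => ⟨measC_const _, fun _ _ _ => rfl⟩, fun h => absurd h he⟩
  choose e s m hs hsys using key
  let T' : Pt I → Set Node := fun y => ftM (fun σ => s (c y) σ y) Set.univ
  have hsC : ∀ σ, MeasC (fun y => s (c y) σ y) := fun σ => MeasC.bindC hc fun x => (hs x σ).1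
  have hT'm : Measurable T' :=
    hFtm.2 (Pt I) (fun σ y => s (c y) σ y) (fun _ => Set.univ) hsC
      (fun σ => by simp)
  have hT'd : Dep α T' := by
    intro y y' h
    show ftM _ _ = ftM _ _
    congr 1
    funext σ
    show s (c y) σ y = s (c y') σ y'
    rw [hcd y y' h]
    exact (hs (c y') σ).2 y y' fun i hi => h i hi.2
  have hsy : ∀ y ∈ r.body, MSys I N Dq α (c y) y (fun σ => e (c y) σ y) (fun σ => s (c y) σ y)
      (fun σ k => m (c y) σ k y) := fun y hy =>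
    hsys (c y) (hcr y hy).1 y (hcr y hy).2.1 (hcr y hy).2.2
  have hgood : ∀ y ∈ r.body, Good (ty α) (T' y) := by
    intro y hy
    rw [hty]
    exact (hFtm.1 _ _ Set.univ big_univ (hsy y hy).mono (hsy y hy).node).1
  let q := r.setT α T' hT'm hT'd
  have hE : Cond.Ext α r q := by
    refine ⟨fun i hi => Cond.setT_T_ne r T' hT'm hT'd hi.ne, fun i hi => ?_⟩
    rw [Cond.setT_S]
    simp [hi.ne]
  have hqb : q.Below (nx α) := by
    intro i hi
    rw [Cond.setT_S] at hi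
    rcases hi with rfl | hi
    · exact lt_nx _
    · exact (hr.below i hi).trans (lt_nx _)
  refine ⟨q, VB_of_ext rfl hr hE hqb (fun h => by rw [hty] at h; cases h), hE, ?_⟩
  intro y hy
  have hyr : y ∈ r.body := hE.le hr.below hy
  have hsyy := hsy y hyr
  have hTy : q.T α y = T' y := Cond.setT_T_self r T' hT'm hT'd (hgood y hyr)
  have hyα : y α ∈ bd true (T' y) := by
    have := hy α (by rw [Cond.setT_S]; exact Set.mem_insert _ _)
    rw [hTy, hty] at this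
    exact this
  obtain ⟨g, hg⟩ := (hFtm.1 _ _ Set.univ big_univ hsyy.mono hsyy.node).2 (y α) hyα
  obtain ⟨hinf, hbr⟩ := hSys.1 N Dq α (c y) y _ _ _ hsyy (y α) g (fun n => (hg n).2)
  have hle : ∀ n, e (c y) (ini g n) y ≤ c y := by
    intro n
    induction n with
    | zero => exact hsyy.root
    | succ n ih =>
      rw [ini_succ]
      exact (hsyy.step (ini g n) (g n)).trans ih
  have hmem : ∀ (d : Cond I) (n : ℕ), e (c y) (ini g n) y ≤ d → y ∈ (d.restr (nx α)).body := by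
    intro d n hd
    have h1 := (hsyy.mem (ini g n)).2.1
    refine mem_restr_nx (Cond.restr_mono hd α h1) fun _ => ⟨?_, fun _ => hinf⟩
    exact bS_mono (Cond.T_subset hd h1) (hbr n)
  refine ⟨hmem _ 0 (hle 0), fun D hDD => ?_⟩
  obtain ⟨n, rfl⟩ : ∃ n, Dq n = D := by rw [← hDq] at hDD; exact hDD
  obtain ⟨d, hdN, hdD, hd1, hd2⟩ := hsyy.hit (ini g n) (g n) n (by rw [length_ini]; omega)
  refine ⟨d, hdN, hd2.trans (hle n), hdD, hmem d (n + 1) ?_⟩
  rw [ini_succ]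
  exact hd1

/-- The Sacks case. -/
theorem step_sacks (hCst2 : Cst2Stmt I) (hSfus : SfusStmt I) (hFts : FtSStmt) (hSys : SysStmt I)
    (hSfree : SfreeStmt I) (hHg : HgStmt I)
    (β : I) (N : Set (Cond I)) (Z : Set I) (𝒟 : Set (Set (Cond I)))
    (hN : GoodN I β N Z) (hD : GoodD I β N Z 𝒟) (hB : ∀ ρ, ρ < β → BRw I ρ ∧ Cst I ρ)
    (α : I) (hαβ : α < β) (hα : α ∈ Z)
    (hty : ty α = false) (r : Cond I) (hr : VB α r) (c : Pt I → Cond I) (hc : MeasC c)
    (hcd : Dep α c)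
    (hcr : ∀ y ∈ r.body, c y ∈ N ∧ y ∈ ((c y).restr α).body ∧ Gen I N 𝒟 α y)
    (Dq : ℕ → Set (Cond I)) (hDq : Set.range Dq = 𝒟) :
    ∃ q, VB (nx α) q ∧ Cond.Ext α r q ∧
      ∀ y ∈ q.body, y ∈ ((c y).restr (nx α)).body ∧ Hit I N 𝒟 (nx α) (c y) y := by
  classical
  have hDq' : ∀ n, Dq n ∈ 𝒟 := fun n => hDq ▸ Set.mem_range_self n
  have key : ∀ e0 : Cond I, ∃ (e : List Bool → Pt I → Cond I) (s : List Bool → Pt I → Node),
      (∀ σ, MeasC (s σ) ∧ DepOn (Z ∩ Set.Iio α) (s σ)) ∧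
      (e0 ∈ N → ∀ y ∈ (e0.restr α).body, Gen I N 𝒟 α y →
        SSys I N Dq α e0 y (fun σ => e σ y) (fun σ => s σ y)) := by
    intro e0
    by_cases he : e0 ∈ N
    · obtain ⟨e, s, h1, h2, h4⟩ := hSfus β N Z 𝒟 hN hD α hα hty e0 he Dq hDq'
      exact ⟨e, s, h2, fun _ => h4⟩
    · exact ⟨fun _ _ => e0, fun _ _ => [],
        fun σ => ⟨measC_const _, fun _ _ _ => rfl⟩, fun h => absurd h he⟩
  choose e s hs hsys using key
  let T' : Pt I → Set Node := fun y => ftS (fun σ => s (c y) σ y)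
  have hsC : ∀ σ, MeasC (fun y => s (c y) σ y) := fun σ => MeasC.bindC hc fun x => (hs x σ).1
  have hT'm : Measurable T' :=
    (hFts.2 (Pt I) (fun σ y => s (c y) σ y) (fun _ => Set.univ) hsC
      (fun σ => by simp)).1
  have hT'd : Dep α T' := by
    intro y y' h
    show ftS _ = ftS _
    congr 1
    funext σ
    show s (c y) σ y = s (c y') σ y'
    rw [hcd y y' h]
    exact (hs (c y') σ).2 y y' fun i hi => h i hi.2
  have hsy : ∀ y ∈ r.body, SSys I N Dq α (c y) y (fun σ => e (c y) σ y) (fun σ => s (c y) σ y) :=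
    fun y hy => hsys (c y) (hcr y hy).1 y (hcr y hy).2.1 (hcr y hy).2.2
  have hgood : ∀ y ∈ r.body, Good (ty α) (T' y) := by
    intro y hy
    rw [hty]
    exact (hFts.1 _ (hsy y hy).node).1
  let q := r.setT α T' hT'm hT'd
  have hE : Cond.Ext α r q := by
    refine ⟨fun i hi => Cond.setT_T_ne r T' hT'm hT'd hi.ne, fun i hi => ?_⟩
    rw [Cond.setT_S]
    simp [hi.ne]
  have hqb : q.Below (nx α) := by
    intro i hi
    rw [Cond.setT_S] at hi
    rcases hi with rfl | hi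
    · exact lt_nx _
    · exact (hr.below i hi).trans (lt_nx _)
  have hL : LV α r (q.T α) := by
    intro p0 hp0 hle
    obtain ⟨p1, hp1, hV1, e0, he0⟩ :=
      (hCst2 α (hB α hαβ).1 (hB α hαβ).2).1 p0 hp0 (Cond I) c hc hcd
    have he0N : e0 ∈ N := by
      obtain ⟨y, hy⟩ := p1.body_nonempty
      rw [← he0 y hy]
      exact (hcr y (hle (hp1 hy))).1
    obtain ⟨hGm, hGd⟩ := (hHg β N Z 𝒟 hN hD).2.1 α hαβ
    -- the least coordinate above the relevant part of `Z`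
    let P : Set I := {ρ | ∀ i ∈ Z, i < α → i < ρ}
    have hPne : P.Nonempty := ⟨α, fun i _ hi => hi⟩
    obtain ⟨ρ, hρP, hρmin⟩ : ∃ ρ ∈ P, ∀ ρ' ∈ P, ¬ ρ' < ρ :=
      ⟨(wellFounded_lt (α := I)).min P hPne, (wellFounded_lt (α := I)).min_mem P hPne,
        fun ρ' hρ' => (wellFounded_lt (α := I)).not_lt_min P hρ'⟩
    have hρα : ρ ≤ α := not_lt.1 (hρmin α fun i _ hi => hi)
    have hcof : ∀ ε, ε < ρ → ∃ i ∈ Z, i < α ∧ ε ≤ i := by
      intro ε hε
      by_contra hcon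
      exact hρmin ε (fun i hi hiα => not_le.1 fun h => hcon ⟨i, hi, hiα, h⟩) hε
    let W : Set (Pt I) := {y | y ∈ (e0.restr α).body ∧ Gen I N 𝒟 α y}
    have hWm : MeasurableSet W := (Cond.measurableSet_body _).inter hGm
    have hsub : Z ∩ Set.Iio α ⊆ Set.Iio ρ := fun i hi => hρP i hi.1 hi.2
    have hWd : DepOn (Z ∩ Set.Iio α) (fun y => y ∈ W) := by
      intro y y' h
      have h1 : (y ∈ (e0.restr α).body) = (y' ∈ (e0.restr α).body) :=
        Cond.depOn_restr_body (hN.supp e0 he0N) (hN.dep e0 he0N) α y y' h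
      have h2 : Gen I N 𝒟 α y = Gen I N 𝒟 α y' := hGd y y' h
      show (y ∈ (e0.restr α).body ∧ Gen I N 𝒟 α y) = (y' ∈ (e0.restr α).body ∧ Gen I N 𝒟 α y')
      rw [h1, h2]
    let T0 : Pt I → Set Node := fun y => {t | y ∈ W ∧ t ∈ ftS (fun σ => s e0 σ y)}
    have hF0 : Measurable (fun y => ftS (fun σ => s e0 σ y)) :=
      (hFts.2 (Pt I) (fun σ y => s e0 σ y) (fun _ => Set.univ) (fun σ => (hs e0 σ).1)
        (fun σ => by simp)).1
    refine ⟨p1, hp1, hV1, ρ, T0, hρα, ?_, ?_, ?_, ?_⟩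
    · rw [measurable_node_iff]
      intro t
      exact hWm.inter (measurable_node_iff.1 hF0 t)
    · intro y y' h
      have h1 : (y ∈ W) = (y' ∈ W) := hWd y y' fun i hi => h i (hsub hi)
      have h2 : (fun σ => s e0 σ y) = fun σ => s e0 σ y' := by
        funext σ
        exact (hs e0 σ).2 y y' fun i hi => h i (hsub hi)
      show {t | y ∈ W ∧ t ∈ ftS (fun σ => s e0 σ y)} = {t | y' ∈ W ∧ t ∈ ftS (fun σ => s e0 σ y')}
      rw [h1, h2]
    · have := hSfree β N Z 𝒟 hN hD α hα hty e0 he0N Dq hDq (e e0) (s e0) (hsys e0 he0N) ρ hρα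
        (fun i hi hiα => hρP i hi hiα) hcof (hB ρ (lt_of_le_of_lt hρα hαβ)).1
      refine this.sub fun y x hx => ?_
      exact ⟨(hx 0).1.1, (hx 0).1.2, fun n => (hx n).2⟩
    · intro y hy
      have hyr : y ∈ r.body := hle (hp1 hy)
      have hTy : q.T α y = T' y := Cond.setT_T_self r T' hT'm hT'd (hgood y hyr)
      rw [hTy]
      have hce := he0 y hy
      have hyW : y ∈ W := by
        have := hcr y hyr
        rw [hce] at this
        exact this.2
      show ftS (fun σ => s (c y) σ y) = {t | y ∈ W ∧ t ∈ ftS (fun σ => s e0 σ y)}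
      rw [hce]
      ext t
      exact ⟨fun h => ⟨hyW, h⟩, fun h => h.2⟩
  refine ⟨q, VB_of_ext rfl hr hE hqb (fun _ => hL), hE, ?_⟩
  intro y hy
  have hyr : y ∈ r.body := hE.le hr.below hy
  have hsyy := hsy y hyr
  have hTy : q.T α y = T' y := Cond.setT_T_self r T' hT'm hT'd (hgood y hyr)
  have hyα : y α ∈ bS (T' y) := by
    have := hy α (by rw [Cond.setT_S]; exact Set.mem_insert _ _)
    rw [hTy] at this
    exact this.1
  obtain ⟨g, hg⟩ := (hFts.1 _ hsyy.node).2.1 (y α) hyα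
  have hbr := hSys.2 N Dq α (c y) y _ _ hsyy (y α) g hg
  have hle : ∀ n, e (c y) (pre g n) y ≤ c y := by
    intro n
    induction n with
    | zero => exact hsyy.root
    | succ n ih =>
      rw [pre_succ]
      exact (hsyy.step (pre g n) (g n)).trans ih
  have hmem : ∀ (d : Cond I) (n : ℕ), e (c y) (pre g n) y ≤ d → y ∈ (d.restr (nx α)).body := by
    intro d n hd
    have h1 := (hsyy.mem (pre g n)).2.1
    refine mem_restr_nx (Cond.restr_mono hd α h1) fun _ => ⟨?_, fun h => by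
      rw [hty] at h; cases h⟩
    exact bS_mono (Cond.T_subset hd h1) (hbr n)
  refine ⟨hmem _ 0 (hle 0), fun D hDD => ?_⟩
  obtain ⟨n, rfl⟩ : ∃ n, Dq n = D := by rw [← hDq] at hDD; exact hDD
  obtain ⟨d, hdN, hdD, hd1, hd2⟩ := hsyy.hit (pre g n) (g n) n (by rw [length_pre])
  refine ⟨d, hdN, hd2.trans (hle n), hdD, hmem d (n + 1) ?_⟩
  rw [pre_succ]
  exact hd1

/-- STEP. -/
theorem step (hCst2 : Cst2Stmt I) (hMfus : MfusStmt I) (hSfus : SfusStmt I) (hFtm : FtMStmt)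
    (hFts : FtSStmt) (hSys : SysStmt I) (hSfree : SfreeStmt I) (hHg : HgStmt I) : StepStmt I := by
  intro β N Z 𝒟 hN hD hB α hαβ r hr c hc hcd hcr
  by_cases hα : α ∈ Z
  · obtain ⟨Dq, hDq⟩ := hD.cnt.exists_eq_range ⟨_, hD.ds α hα⟩
    cases hty : ty α with
    | true =>
      exact step_miller hMfus hFtm hSys β N Z 𝒟 hN hD α hα hty r hr c hc hcd hcr Dq hDq.symm
    | false =>
      exact step_sacks hCst2 hSfus hFts hSys hSfree hHg β N Z 𝒟 hN hD hB α hαβ hα hty r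
        hr c hc hcd hcr Dq hDq.symm
  · refine ⟨r, hr.mono (lt_nx α).le, Cond.Ext.refl _ _, fun y hy => ?_⟩
    obtain ⟨h1, h2, h3⟩ := hcr y hy
    refine ⟨mem_restr_nx h2 fun h => absurd (hN.supp _ h1 h) hα, fun D hDD => ?_⟩
    obtain ⟨d, hdN, hdc, hdD, hyd⟩ := h3 (c y) h1 h2 D hDD
    exact ⟨d, hdN, hdc, hdD, mem_restr_nx hyd fun h => absurd (hN.supp _ hdN h) hα⟩

end Pool.Agent.MG.H82
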